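import Pool.Agent.Helper53.UR.Hub

/-!
# Project UR (MP_c578c8_lc), packet OLM
-/

set_option autoImplicit false

namespace Pool.Agent.Helper13.UR

open Pool.Agent.Helper65.LinSpace
open Pool.Agent.Helper53.UR
open Pool.Agent.Helper1.TE (USPACE)
open Pool.Agent.Helper31.OL (Lp OL)

theorem lt01_lt01 (x : ℕ) : lt01 0 (lt01 0 x) = lt01 0 x := by
  unfold lt01
  split_ifs <;> simp_all

theorem ok_um (hW : ∀ z : Qn, z.W = 2 ^ Pool.Agent.Helper53.CTG.Et z.N z.q z.b z.c)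
    (hP : ParOK) (L : Lp Qn ℕ ℕ) (pm : Qn → Qn) (flip : ℕ) : (umU L pm flip).Ok where
  hq o := (hP.1 (pm (L.q o)).n (pm (L.q o)).T).1
  hN o := (hP.1 (pm (L.q o)).n (pm (L.q o)).T).2.1
  hb o := (hP.1 (pm (L.q o)).n (pm (L.q o)).T).2.2.1
  hc o := (hP.1 (pm (L.q o)).n (pm (L.q o)).T).2.2.2.1
  hW o := hW (pm (L.q o))
  ht o m v x y z := hP.2.1 (pm (L.q o)) m v x y z

theorem cmp5 {β : Type} [Ctx β] (f : Qn → ℕ → ℕ → ℕ → ℕ → ℕ → ℕ)
    (hf : LS (fun x : Qn × ℕ × ℕ × ℕ × ℕ × ℕ =>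
      f x.1 x.2.1 x.2.2.1 x.2.2.2.1 x.2.2.2.2.1 x.2.2.2.2.2)) (g : β → Qn) (hg : LS g) :
    LS (fun x : β × ℕ × ℕ × ℕ × ℕ × ℕ =>
      f (g x.1) x.2.1 x.2.2.1 x.2.2.2.1 x.2.2.2.2.1 x.2.2.2.2.2) :=
  LS.comp hf ((hg.comp LS.fst).prodMk LS.snd)

theorem cmp1 {β : Type} [Ctx β] (f : Qn → ℕ → ℕ) (hf : LS (fun x : Qn × ℕ => f x.1 x.2))
    (g : β → Qn) (hg : LS g) : LS (fun x : β × ℕ => f (g x.1) x.2) :=
  LS.comp hf ((hg.comp LS.fst).prodMk LS.snd)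

theorem cmp0 {β : Type} [Ctx β] (f : Qn → ℕ) (hf : LS f)
    (g : β → Qn) (hg : LS g) : LS (fun x : β => f (g x)) :=
  LS.comp hf hg

theorem ls_um (hL : LSParOK) (hT : LS (fun x : Qn × ℕ × ℕ × ℕ × ℕ × ℕ =>
    x.1.t x.2.1 x.2.2.1 x.2.2.2.1 x.2.2.2.2.1 x.2.2.2.2.2))
    (L : Lp Qn ℕ ℕ) (pm : Qn → Qn) (hpm : LS pm) (flip : ℕ) : (umU L pm flip).Ls := by
  obtain ⟨-, -, -, -, -, -, -, hN, hq, hb, hc, hW, hs⟩ := hL
  have hz : LS (fun o : L.B => pm (L.q o)) := LS.comp (g := pm) hpm L.lq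
  exact
    { I := L.lI
      d := L.ld
      h := L.lh
      out := LS.ifz (LS.const _) L.lo (LS.ifz L.lo (LS.const _) (LS.const _))
      N := cmp0 Qn.N hN (fun o : L.B => pm (L.q o)) hz
      q := cmp0 Qn.q hq (fun o : L.B => pm (L.q o)) hz
      b := cmp0 Qn.b hb (fun o : L.B => pm (L.q o)) hz
      c := cmp0 Qn.c hc (fun o : L.B => pm (L.q o)) hz
      W := cmp0 Qn.W hW (fun o : L.B => pm (L.q o)) hz
      t := cmp5 Qn.t hT (fun o : L.B => pm (L.q o)) hz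
      ts := cmp1 Qn.s hs (fun o : L.B => pm (L.q o)) hz }

theorem bit_um (L : Lp Qn ℕ ℕ) (pm : Qn → Qn) (flip : ℕ) (o : L.B) :
    (umU L pm flip).bit o = Pool.Agent.Helper31.OL.bit (accPm pm) (L.q o) := by
  show lt01 0 ((pm (L.q o)).s (pm (L.q o)).val) = lt01 0 (lt01 0 ((pm (L.q o)).s (pm (L.q o)).val))
  rw [lt01_lt01]

theorem orun_um (L : Lp Qn ℕ ℕ) (pm : Qn → Qn) (flip : ℕ) (x i : ℕ) :
    (umU L pm flip).orun x i = L.st (accPm pm) x i := by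
  induction i with
  | zero => rfl
  | succ i ih =>
    show L.d ((umU L pm flip).orun x i, (umU L pm flip).bit ((umU L pm flip).orun x i)) = _
    rw [ih, bit_um]
    unfold Lp.st
    rw [Function.iterate_succ_apply']
    rfl

theorem lang_um (L : Lp Qn ℕ ℕ) (pm : Qn → Qn) (flip : ℕ) (F : ℕ → ℕ) (hF : L.Comp (accPm pm) F) :
    (umU L pm flip).Lang = {w | ifz flip (F (num w)) (ifz (F (num w)) 1 0) ≠ 0} := by
  ext w
  obtain ⟨t, h1, h2, h3, -⟩ := hF (num w)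
  show (∃ T, (∀ i < T, L.h ((umU L pm flip).orun (num w) i) = 0) ∧
    L.h ((umU L pm flip).orun (num w) T) ≠ 0 ∧
    ifz flip (L.o ((umU L pm flip).orun (num w) T))
      (ifz (L.o ((umU L pm flip).orun (num w) T)) 1 0) ≠ 0) ↔
    ifz flip (F (num w)) (ifz (F (num w)) 1 0) ≠ 0
  simp only [orun_um]
  constructor
  · rintro ⟨T, g1, g2, g3⟩
    have hTt : T = t := by
      rcases lt_trichotomy T t with h | h | h
      · exact absurd (h2 T h) g2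
      · exact h
      · exact absurd (g1 t h) h1
    rw [hTt, h3] at g3
    exact g3
  · intro h
    refine ⟨t, h2, h1, ?_⟩
    rw [h3]
    exact h

theorem um_mem (hG : GenOK)
    (hW : ∀ z : Qn, z.W = 2 ^ Pool.Agent.Helper53.CTG.Et z.N z.q z.b z.c)
    (hP : ParOK) (hL : LSParOK) (hT : LS (fun x : Qn × ℕ × ℕ × ℕ × ℕ × ℕ =>
    x.1.t x.2.1 x.2.2.1 x.2.2.2.1 x.2.2.2.2.1 x.2.2.2.2.2))
    (L : Lp Qn ℕ ℕ) (pm : Qn → Qn) (hpm : LS pm) (flip : ℕ) (F : ℕ → ℕ)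
    (hF : L.Comp (accPm pm) F) :
    {w | ifz flip (F (num w)) (ifz (F (num w)) 1 0) ≠ 0} ∈ USPACE (fun n => (n : ℝ)) := by
  rw [← lang_um L pm flip F hF]
  refine hG (umU L pm flip) (ok_um hW hP L pm flip) (ls_um hL hT L pm hpm flip) L.C L.lC ?_
  intro x j hj i
  obtain ⟨t, h1, h2, -, h4⟩ := hF x
  have hjt : j ≤ t := by
    by_contra h
    refine h1 ?_
    have := hj t (not_le.1 h)
    rw [orun_um] at this
    exact this
  rw [orun_um]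
  exact h4 j hjt i

theorem gOLM : GoalOLM := by
  intro hG hW hP hL hT pm hpm F hF
  obtain ⟨L, hF⟩ := hF
  have h0 := um_mem hG hW hP hL hT L pm hpm 0 F hF
  have h1 := um_mem hG hW hP hL hT L pm hpm 1 F hF
  have e0 : {w : List Bool | ifz 0 (F (num w)) (ifz (F (num w)) 1 0) ≠ 0} =
      {w | F (num w) ≠ 0} := by
    ext w
    rfl
  have e1 : {w : List Bool | ifz 1 (F (num w)) (ifz (F (num w)) 1 0) ≠ 0} =
      {w | F (num w) ≠ 0}ᶜ := by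
    ext w
    show ifz 1 (F (num w)) (ifz (F (num w)) 1 0) ≠ 0 ↔ ¬ (F (num w) ≠ 0)
    unfold ifz
    split_ifs <;> simp_all
  rw [e0] at h0
  rw [e1] at h1
  exact ⟨h0, h1⟩

end Pool.Agent.Helper13.UR
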